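import Pool.Agent.Helper33.DZ.Stmts

/-! # The Eichler integral -/

open Complex

namespace Pool.Agent.Helper33.DZ

theorem eich_tend (X : ℂ) (n : ℕ) :
    Filter.Tendsto (fun t : ℝ => (X - I * (t : ℂ)) ^ n *
      ((Real.exp (-(2 * Real.pi * t)) : ℝ) : ℂ)) Filter.atTop (nhds 0) := by
  rw [tendsto_zero_iff_norm_tendsto_zero]
  have h1 : Filter.Tendsto
      (fun t : ℝ => Real.exp ‖X‖ * ((‖X‖ + t) ^ n * Real.exp (-(‖X‖ + t))))
      Filter.atTop (nhds 0) := by
    have h := (Real.tendsto_pow_mul_exp_neg_atTop_nhds_zero n).comp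
      (Filter.tendsto_atTop_add_const_left Filter.atTop ‖X‖ Filter.tendsto_id)
    simpa using h.const_mul (Real.exp ‖X‖)
  refine squeeze_zero' (Filter.Eventually.of_forall fun t => norm_nonneg _) ?_ h1
  filter_upwards [Filter.eventually_ge_atTop (0 : ℝ)] with t ht
  rw [norm_mul, norm_pow, Complex.norm_real, Real.norm_of_nonneg (Real.exp_pos _).le]
  have h2 : ‖X - I * (t : ℂ)‖ ≤ ‖X‖ + t := by
    calc ‖X - I * (t : ℂ)‖ ≤ ‖X‖ + ‖I * (t : ℂ)‖ := norm_sub_le _ _
      _ = ‖X‖ + t := by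
        rw [norm_mul, Complex.norm_I, one_mul, Complex.norm_real, Real.norm_of_nonneg ht]
  have h3 : Real.exp (-(2 * Real.pi * t)) ≤ Real.exp ‖X‖ * Real.exp (-(‖X‖ + t)) := by
    rw [← Real.exp_add]
    apply Real.exp_le_exp.2
    have := Real.pi_gt_three
    nlinarith
  calc ‖X - I * (t : ℂ)‖ ^ n * Real.exp (-(2 * Real.pi * t))
      ≤ (‖X‖ + t) ^ n * (Real.exp ‖X‖ * Real.exp (-(‖X‖ + t))) :=
        mul_le_mul (pow_le_pow_left₀ (norm_nonneg _) h2 n) h3 (Real.exp_pos _).le (by positivity)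
    _ = _ := by ring

theorem eich_q (t : ℝ) : Complex.exp (2 * Real.pi * I * (I * (t : ℂ))) =
    ((Real.exp (-(2 * Real.pi * t)) : ℝ) : ℂ) := by
  push_cast
  congr 1
  have : (2 * (Real.pi : ℂ) * I * (I * (t : ℂ))) = (2 * Real.pi * t) * (I * I) := by ring
  rw [this, Complex.I_mul_I]
  ring

theorem eich_ball (z : ℂ) (hz : 0 < z.im) :
    Complex.exp (2 * Real.pi * I * z) ∈ Metric.ball (0 : ℂ) 1 := by
  rw [mem_ball_zero_iff, Complex.norm_exp]
  have h : (2 * (Real.pi : ℂ) * I * z).re = -(2 * Real.pi * z.im) := by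
    simp [Complex.mul_re, Complex.mul_im]
  rw [h, Real.exp_lt_one_iff]
  have hp := Real.pi_pos
  have : 0 < 2 * Real.pi * z.im := by positivity
  linarith

theorem eich_P (P : ℂ → ℂ) (hP : DifferentiableOn ℂ P (Metric.ball 0 1)) (h0 : P 0 = 0)
    (X : ℂ) (n : ℕ) : Filter.Tendsto (fun t : ℝ => (X - I * (t : ℂ)) ^ n *
      P ((Real.exp (-(2 * Real.pi * t)) : ℝ) : ℂ)) Filter.atTop (nhds 0) := by
  have hq : Filter.Tendsto (fun t : ℝ => ((Real.exp (-(2 * Real.pi * t)) : ℝ) : ℂ))
      Filter.atTop (nhds 0) := by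
    have h := eich_tend 0 0
    simpa using h
  have hd : DifferentiableAt ℂ P 0 :=
    hP.differentiableAt (Metric.ball_mem_nhds 0 one_pos)
  have hc : ContinuousAt (dslope P 0) 0 := continuousAt_dslope_same.2 hd
  have h1 : Filter.Tendsto (fun t : ℝ => dslope P 0 ((Real.exp (-(2 * Real.pi * t)) : ℝ) : ℂ))
      Filter.atTop (nhds (dslope P 0 0)) := hc.tendsto.comp hq
  have h2 := (eich_tend X n).mul h1
  rw [zero_mul] at h2
  refine h2.congr fun t => ?_
  have h3 := sub_smul_dslope P 0 ((Real.exp (-(2 * Real.pi * t)) : ℝ) : ℂ)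
  rw [sub_zero, h0, sub_zero, smul_eq_mul] at h3
  rw [mul_assoc, h3]

theorem st_EICH (h1 : ST_PRIM) (h2 : ST_INTG) : ST_EICH := by
  intro w g hg hg0
  -- the iterated primitives
  have hstep : ∀ P : {P : ℂ → ℂ // DifferentiableOn ℂ P (Metric.ball 0 1) ∧ P 0 = 0},
      ∃ Q : {P : ℂ → ℂ // DifferentiableOn ℂ P (Metric.ball 0 1) ∧ P 0 = 0},
        ∀ q ∈ Metric.ball (0 : ℂ) 1, q * deriv Q.1 q = P.1 q := by
    intro P
    obtain ⟨Q, hQ1, hQ2, hQ3⟩ := h1 P.1 P.2.1 P.2.2
    exact ⟨⟨Q, hQ1, hQ2⟩, hQ3⟩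
  choose nx hnx using hstep
  set P : ℕ → {P : ℂ → ℂ // DifferentiableOn ℂ P (Metric.ball 0 1) ∧ P 0 = 0} :=
    fun j => Nat.rec ⟨g, hg, hg0⟩ (fun _ Q => nx Q) j with hPdef
  have hP0 : (P 0).1 = g := rfl
  have hPs : ∀ j, ∀ q ∈ Metric.ball (0 : ℂ) 1, q * deriv (P (j + 1)).1 q = (P j).1 q :=
    fun j => hnx (P j)
  have hpi : (2 * (Real.pi : ℂ) * I) ≠ 0 := by
    have : (Real.pi : ℂ) ≠ 0 := by exact_mod_cast Real.pi_ne_zero
    simp [this, Complex.I_ne_zero]
  set F : ℕ → ℂ → ℂ := fun j z =>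
    (2 * (Real.pi : ℂ) * I)⁻¹ ^ j * (P j).1 (Complex.exp (2 * Real.pi * I * z)) with hF
  have hF0 : ∀ z, F 0 z = g (Complex.exp (2 * Real.pi * I * z)) := by
    intro z
    rw [hF]
    simp only [pow_zero, one_mul]
    rw [hP0]
  have hFd : ∀ j z, 0 < z.im → HasDerivAt (F (j + 1)) (F j z) z := by
    intro j z hz
    have hb := eich_ball z hz
    have hd : HasDerivAt (P (j + 1)).1
        (deriv (P (j + 1)).1 (Complex.exp (2 * Real.pi * I * z)))
        (Complex.exp (2 * Real.pi * I * z)) :=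
      ((P (j + 1)).2.1.differentiableAt (Metric.isOpen_ball.mem_nhds hb)).hasDerivAt
    have he : HasDerivAt (fun z : ℂ => Complex.exp (2 * Real.pi * I * z))
        (Complex.exp (2 * Real.pi * I * z) * (2 * Real.pi * I)) z := by
      have := (hasDerivAt_id z).const_mul (2 * (Real.pi : ℂ) * I)
      simpa using this.cexp
    have hc := (hd.comp z he).const_mul ((2 * (Real.pi : ℂ) * I)⁻¹ ^ (j + 1))
    have heq : F j z = (2 * (Real.pi : ℂ) * I)⁻¹ ^ (j + 1) *
        (deriv (P (j + 1)).1 (Complex.exp (2 * Real.pi * I * z)) *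
          (Complex.exp (2 * Real.pi * I * z) * (2 * Real.pi * I))) := by
      rw [hF]
      simp only
      rw [← hPs j _ hb, pow_succ]
      field_simp
    rw [heq]
    exact hc
  have hFp : ∀ j z, F j (z + 1) = F j z := by
    intro j z
    rw [hF]
    simp only
    congr 2
    rw [mul_add, mul_one, Complex.exp_add, Complex.exp_two_pi_mul_I, mul_one]
  set E : ℂ → ℂ → ℂ := fun z X => ∑ j ∈ Finset.range (w + 1),
    (w.descFactorial j : ℂ) * ((X - z) ^ (w - j) * F (j + 1) z) with hE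
  have hEd : ∀ z X : ℂ, 0 < z.im → HasDerivAt (fun z => E z X)
      (g (Complex.exp (2 * Real.pi * I * z)) * (X - z) ^ w) z := by
    intro z X hz
    have ht : ∀ j ∈ Finset.range (w + 1), HasDerivAt
        (fun z => (w.descFactorial j : ℂ) * ((X - z) ^ (w - j) * F (j + 1) z))
        ((w.descFactorial j : ℂ) * (X - z) ^ (w - j) * F j z -
          (w.descFactorial (j + 1) : ℂ) * (X - z) ^ (w - (j + 1)) * F (j + 1) z) z := by
      intro j _
      have h3 : HasDerivAt (fun z : ℂ => (X - z) ^ (w - j))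
          (((w - j : ℕ) : ℂ) * (X - z) ^ (w - j - 1) * (-1)) z := by
        have := ((hasDerivAt_id z).const_sub X).fun_pow (w - j)
        simpa using this
      have h4 := (h3.mul (hFd j z hz)).const_mul (w.descFactorial j : ℂ)
      have h5 : (w.descFactorial j : ℂ) * (X - z) ^ (w - j) * F j z -
          (w.descFactorial (j + 1) : ℂ) * (X - z) ^ (w - (j + 1)) * F (j + 1) z =
          (w.descFactorial j : ℂ) * (((w - j : ℕ) : ℂ) * (X - z) ^ (w - j - 1) * (-1) *
            F (j + 1) z + (X - z) ^ (w - j) * F j z) := by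
        rw [Nat.descFactorial_succ, Nat.sub_sub]
        push_cast
        ring
      rw [h5]
      exact h4
    have hs := HasDerivAt.fun_sum ht
    have h6 := Finset.sum_range_sub'
      (fun j => (w.descFactorial j : ℂ) * (X - z) ^ (w - j) * F j z) (w + 1)
    rw [h6, Nat.descFactorial_of_lt (Nat.lt_succ_self w), Nat.descFactorial_zero, hF0,
      Nat.sub_zero] at hs
    have h7 : ((1 : ℕ) : ℂ) * (X - z) ^ w * g (Complex.exp (2 * Real.pi * I * z)) -
        ((0 : ℕ) : ℂ) * (X - z) ^ (w - (w + 1)) * F (w + 1) z =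
        g (Complex.exp (2 * Real.pi * I * z)) * (X - z) ^ w := by
      push_cast
      ring
    rw [h7] at hs
    exact hs
  refine ⟨E, hEd, ?_, ?_⟩
  · intro z X _
    rw [hE]
    simp only
    apply Finset.sum_congr rfl
    intro j _
    rw [hFp, add_sub_add_right_eq_sub]
  · intro X
    set f : ℝ → ℂ := fun t => E (I * (t : ℂ)) X with hf
    set f' : ℝ → ℂ := fun t =>
      I * (g ((Real.exp (-(2 * Real.pi * t)) : ℝ) : ℂ) * (X - I * (t : ℂ)) ^ w) with hf'
    have hder : ∀ t ∈ Set.Ici (1 : ℝ), HasDerivAt f (f' t) t := by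
      intro t ht
      have ht1 : (1 : ℝ) ≤ t := ht
      have him : 0 < (I * (t : ℂ)).im := by
        simp only [Complex.mul_im, Complex.I_re, Complex.I_im, Complex.ofReal_re,
          Complex.ofReal_im]
        linarith
      have h3 := hEd (I * (t : ℂ)) X him
      have h4 : HasDerivAt (fun t : ℝ => I * (t : ℂ)) I t := by
        have := (Complex.ofRealCLM.hasDerivAt (x := t)).const_mul I
        simpa using this
      have h5 := h3.comp t h4
      have h6 : f' t = g (Complex.exp (2 * Real.pi * I * (I * (t : ℂ)))) *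
          (X - I * (t : ℂ)) ^ w * I := by
        rw [hf', eich_q]
        ring
      rw [h6]
      exact h5
    have hint : MeasureTheory.IntegrableOn f' (Set.Ioi 1) := by
      have h3 : f' = fun t : ℝ => ∑ m ∈ Finset.range (w + 1),
          (I * (X ^ m * (-I) ^ (w - m) * (w.choose m : ℂ))) *
            (g ((Real.exp (-(2 * Real.pi * t)) : ℝ) : ℂ) * (t : ℂ) ^ (w - m)) := by
        funext t
        rw [hf']
        simp only
        rw [show X - I * (t : ℂ) = X + (-I) * (t : ℂ) by ring, add_pow, Finset.mul_sum,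
          Finset.mul_sum]
        apply Finset.sum_congr rfl
        intro m _
        rw [mul_pow]
        ring
      rw [h3]
      refine MeasureTheory.integrable_finsetSum _ fun m _ => ?_
      exact (h2 g hg hg0 (w - m)).const_mul _
    have hlim : Filter.Tendsto f Filter.atTop (nhds 0) := by
      have h3 : f = fun t : ℝ => ∑ j ∈ Finset.range (w + 1),
          ((w.descFactorial j : ℂ) * (2 * (Real.pi : ℂ) * I)⁻¹ ^ (j + 1)) *
            ((X - I * (t : ℂ)) ^ (w - j) *
              (P (j + 1)).1 ((Real.exp (-(2 * Real.pi * t)) : ℝ) : ℂ)) := by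
        funext t
        rw [hf, hE, hF]
        simp only
        apply Finset.sum_congr rfl
        intro j _
        rw [eich_q]
        ring
      rw [h3]
      have h4 : Filter.Tendsto (fun t : ℝ => ∑ j ∈ Finset.range (w + 1),
          ((w.descFactorial j : ℂ) * (2 * (Real.pi : ℂ) * I)⁻¹ ^ (j + 1)) *
            ((X - I * (t : ℂ)) ^ (w - j) *
              (P (j + 1)).1 ((Real.exp (-(2 * Real.pi * t)) : ℝ) : ℂ))) Filter.atTop
          (nhds (∑ j ∈ Finset.range (w + 1),
          ((w.descFactorial j : ℂ) * (2 * (Real.pi : ℂ) * I)⁻¹ ^ (j + 1)) * 0)) :=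
        tendsto_finsetSum _ fun j _ =>
          (eich_P (P (j + 1)).1 (P (j + 1)).2.1 (P (j + 1)).2.2 X (w - j)).const_mul _
      simpa using h4
    have hfin := MeasureTheory.integral_Ioi_of_hasDerivAt_of_tendsto' hder hint hlim
    have h8 : ∫ t in Set.Ioi (1 : ℝ), f' t = I * JJ w g X := by
      rw [hf', JJ]
      exact MeasureTheory.integral_const_mul _ _
    rw [h8, zero_sub] at hfin
    have h9 : f 1 = E I X := by
      rw [hf]
      simp
    rw [h9] at hfin
    rw [neg_mul, hfin, neg_neg]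

end Pool.Agent.Helper33.DZ
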